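import Pool.Agent.H49.CL.Targets
import Pool.Agent.H57.CN.Basics
import Pool.Agent.H44.FB.Basics

/-!
# Chains of equivalence relations, links, row LYR: layers
-/

set_option autoImplicit false
set_option linter.unusedVariables false

namespace Pool.Agent.H74.CL

open Pool.Agent.H68.BP Pool.Agent.H58.SF Pool.Agent.H53.NR
open Pool.Agent.H57.AR (tp ty Ty)
open Pool.Agent.H57.EQ (Cx)
open Pool.Agent.H44.KR (HB Tyi TpOn)
open Pool.Agent.H44.FB (CptC EmbC tpo_comp tpo_mono tpo_congr)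
open Pool.Agent.H57.CN (lv_tp)
open Pool.Agent.H72.CH Pool.Agent.H49.CL
open Function

section

variable {V : Type} {ρ σ : Sig} {𝔸 : Str σ V} {𝔹 : Str ρ V} {m : ℕ} {lv : V → V → ℕ}
  {i h : ℕ} {R : Set (Ty ρ (Fin 2))}

theorem exu_mono {g : V → V} {U U' : Set V} (hU : ExU 𝔹 lv i R g U) (hs : U' ⊆ U) :
    ExU 𝔹 lv i R g U' := fun x hx y hy => hU x (hs hx) y (hs hy)

theorem tpo_pre {W W' : Type} {A : Set W} {A' : Set W'} {x y : W → V} (hT : TpOn 𝔹 A x y)
    (z : W' → W) (hz : ∀ w ∈ A', z w ∈ A) : TpOn 𝔹 A' (fun w => x (z w)) (fun w => y (z w)) :=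
  ⟨fun a ha b hb => hT.1 _ (hz a ha) _ (hz b hb), fun l w hw => hT.2 l _ fun i => hz _ (hw i)⟩

/-- no layers -/
theorem lyr_zero (hV : HV 𝔹 m lv) (hm : h < m) : LyrC 𝔸 𝔹 lv i R h 0 := by
  intro p q Q hpq hQ
  refine ⟨Bool ⊕ {v : V // v ∈ Q}, inferInstance, fun _ => 0,
    Sum.elim (fun b => if b = true then p else q) Subtype.val,
    {x | ∃ b : Bool, x = Sum.inl b}, Sum.inl true, Sum.inl false, ?_⟩
  refine ⟨⟨rfl, rfl, true, rfl⟩, ⟨rfl, rfl, false, rfl⟩, fun v hv => ⟨Sum.inr ⟨v, hv⟩, rfl, rfl⟩,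
    ?_, fun _ => le_rfl, ?_, ⟨Sum.inl true, ⟨true, rfl⟩, rfl⟩, ?_, ?_, ?_, ?_⟩
  · rintro ((_ | _) | v) _
    · exact Or.inr (Or.inl rfl)
    · exact Or.inl rfl
    · exact Or.inr (Or.inr v.2)
  · rintro _ ⟨b, rfl⟩
    cases b
    · show h ≤ lv q p
      rw [hV.lev.pl.sym]
      exact hpq
    · show h ≤ lv p p
      rw [hV.lev.pl.self]
      exact hm.le
  · intro x y j hj
    exact absurd hj (by omega)
  · intro x _ x' hx
    exact absurd hx (by omega)
  · intro x hx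
    exact absurd hx (by omega)
  · intro k hk
    exact absurd hk (by omega)

/-- one more layer -/
theorem lyr_succ (hV : HV 𝔹 m lv) (hA : AmlC 𝔹 lv) (hP : PrpC 𝔸 𝔹 lv i R h) (hm : h < m)
    {N : ℕ} (ih : LyrC 𝔸 𝔹 lv i R h N) : LyrC 𝔸 𝔹 lv i R h (N + 1) := by
  classical
  intro p q Q hpq hQ
  obtain ⟨X, hX, ht, f, L, xp, xq, H⟩ := ih p q Q hpq hQ
  have hself : ∀ v, lv v v = m := hV.lev.pl.self
  have hsym : ∀ u v, lv u v = lv v u := hV.lev.pl.sym
  have hult : ∀ (j : ℕ) (u v w : V), j ≤ lv u v → j ≤ lv v w → j ≤ lv u w := fun j u v w h1 h2 =>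
    (le_min h1 h2).trans (hV.lev.pl.ult u v w)
  -- the last layer
  obtain ⟨k, ⟨e⟩⟩ : ∃ k : ℕ, Nonempty (Fin (k + 1) ≃ {x : X // x ∈ L ∧ ht x = N}) := by
    obtain ⟨x, hx1, hx2⟩ := H.top
    have : Nonempty {x : X // x ∈ L ∧ ht x = N} := ⟨⟨x, hx1, hx2⟩⟩
    have h0 : 0 < Nat.card {x : X // x ∈ L ∧ ht x = N} := Nat.card_pos
    refine ⟨Nat.card {x : X // x ∈ L ∧ ht x = N} - 1, ?_⟩
    rw [Nat.sub_add_cancel h0]
    exact ⟨(Finite.equivFin _).symm⟩
  obtain ⟨y, hy⟩ : ∃ y : Fin (k + 1) → V, ∀ a, y a = f (e a).1 := ⟨fun a => f (e a).1, fun _ => rfl⟩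
  have hyp : ∀ a, h ≤ lv (y a) p := fun a => by
    rw [hy]
    exact H.lp _ (e a).2.1
  have hyy : ∀ a b, h ≤ lv (y a) (y b) := fun a b =>
    hult h _ p _ (hyp a) (by rw [hsym]; exact hyp b)
  obtain ⟨Z, hZ, z, ι, L', hzι, ⟨t0, ht0⟩, hL', hprp⟩ := hP k y hyy
  obtain ⟨z2, hz2, hz2A, hz2F⟩ := hA Z (Set.range ι) z z (Set.finite_range f).toFinset
    ⟨fun _ _ _ _ => Iff.rfl, fun _ _ _ => Iff.rfl⟩
  have hstar : ∀ (w : Z) (x : X) (j : ℕ), 1 ≤ j → j ≤ lv (z2 w) (f x) →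
      ∃ a : Fin (k + 1), j ≤ lv (z w) (y a) ∧ j ≤ lv (y a) (f x) := by
    intro w x j hj hjl
    obtain ⟨_, ⟨a, rfl⟩, h1, h2⟩ := hz2F w (f x)
      ((Set.Finite.mem_toFinset _).2 (Set.mem_range_self x)) j hj hjl
    rw [hzι] at h1 h2
    exact ⟨a, h1, h2⟩
  have hz2ι : ∀ a, z2 (ι a) = y a := fun a => (hz2A _ ⟨a, rfl⟩).trans (hzι a)
  have hlz : ∀ t a, lv (z2 t) (y a) = lv (z t) (y a) := by
    intro t a
    have h1 := lv_tp hV hz2 t (ι a)
    rw [hz2ι, hzι] at h1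
    exact h1
  have hLι : ∀ t ∈ L', t ∉ Set.range ι := by
    rintro _ ht' ⟨a, rfl⟩
    have h1 := (hL' _ ht').2 a
    rw [hzι, hself] at h1
    omega
  have hLp : ∀ t ∈ L', h ≤ lv (z2 t) p := fun t ht' =>
    hult h _ (y 0) _ (by rw [hlz]; exact (hL' t ht').1) (hyp 0)
  -- the new layers
  refine ⟨X ⊕ {t : Z // t ∉ Set.range ι}, inferInstance, Sum.elim ht (fun _ => N + 1),
    Sum.elim f (fun t => z2 t.1), {x | Sum.elim (fun x => x ∈ L) (fun t => t.1 ∈ L') x},
    Sum.inl xp, Sum.inl xq, ?_⟩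
  refine ⟨H.hp, H.hq, ?_, ?_, ?_, ?_, ?_, ?_, ?_, ?_, ?_⟩
  · intro v hv
    obtain ⟨x, h1, h2⟩ := H.hQ v hv
    exact ⟨Sum.inl x, h1, h2⟩
  · rintro (x | t) hx
    · exact H.h0 x hx
    · exact absurd (show N + 1 = 0 from hx) (by omega)
  · rintro (x | t)
    · exact (H.hN x).trans (Nat.le_succ N)
    · exact le_rfl
  · rintro (x | t) hx
    · exact H.lp x hx
    · exact hLp t.1 hx
  · exact ⟨Sum.inr ⟨t0, hLι t0 ht0⟩, ht0, rfl⟩
  · rintro (x | t) (x' | t') j h1 h2 h3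
    · exact H.far x x' j h1 h2 h3
    · have h1' : ht x + 2 ≤ N + 1 := h1
      have h3' : j ≤ lv (z2 t'.1) (f x) := by
        rw [hsym]
        exact h3
      obtain ⟨a, h4, h5⟩ := hstar t'.1 x j h2 h3'
      have h6 : lv (f (e a).1) (f x) ≤ h := H.live _ (e a).2.1 x (by
        rw [(e a).2.2]
        omega)
      rw [← hy] at h6
      have h7 : j ≤ h := h5.trans h6
      refine ⟨h7, ?_, ?_⟩
      · exact hult j _ (y a) _ (by rw [hsym]; exact h5) (h7.trans (hyp a))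
      · exact hult j (z2 t'.1) (y a) _ (by rw [hlz]; exact h4) (h7.trans (hyp a))
    · have h1' : N + 1 + 2 ≤ ht x' := h1
      have := H.hN x'
      omega
    · have h1' : N + 1 + 2 ≤ N + 1 := h1
      omega
  · rintro (x | t) hx (x' | t') h1
    · exact H.live x hx x' h1
    · have h1' : N + 1 < ht x := h1
      have := H.hN x
      omega
    · by_contra h2
      have h2' : h + 1 ≤ lv (z2 t.1) (f x') := not_le.1 h2
      obtain ⟨a, h4, -⟩ := hstar t.1 x' (h + 1) (by omega) h2'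
      have h5 := (hL' t.1 hx).2 a
      omega
    · have h1' : N + 1 < N + 1 := h1
      omega
  · rintro (x | t) hx v hv
    · exact H.off x hx v hv
    · by_contra h2
      have h2' : h ≤ lv (z2 t.1) v := not_lt.1 h2
      have h3 := hQ v hv
      obtain ⟨x, -, hxv⟩ := H.hQ v hv
      rw [← hxv] at h2'
      obtain ⟨a, -, h5⟩ := hstar t.1 x h (by omega) h2'
      rw [hxv] at h5
      have h6 : h ≤ lv v p := hult h _ (y a) _ (by rw [hsym]; exact h5) (hyp a)
      omega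
  · intro k' hk' g f'' hg hT E1 E2
    rcases Nat.lt_or_ge k' N with hlt | hge
    · have h1 := H.prp k' hlt g (fun x => f'' (Sum.inl x)) hg
        (tpo_pre hT Sum.inl fun x hx => hx)
        (exu_mono E1 (by
          rintro _ ⟨x, rfl, h2, h3⟩
          exact ⟨Sum.inl x, rfl, h2, h3⟩))
        (exu_mono E2 (by
          rintro _ ⟨x, hx, rfl, h2⟩
          exact ⟨Sum.inl x, hx, rfl, h2⟩))
      refine exu_mono h1 ?_
      rintro _ ⟨x | t, hx, rfl, h2⟩
      · exact ⟨x, hx, rfl, h2⟩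
      · have h2' : N + 1 = k' := h2
        omega
    · have hk'' : k' = N := by omega
      subst hk''
      -- the map of the elements of Z
      have hc : ∀ t : Z, ∃ c : X ⊕ {t : Z // t ∉ Set.range ι},
          (∀ hn : t ∉ Set.range ι, c = Sum.inr ⟨t, hn⟩) ∧
          (t ∈ Set.range ι → ∃ a, ι a = t ∧ c = Sum.inl (e a).1) := by
        intro t
        by_cases hn : t ∈ Set.range ι
        · obtain ⟨a, ha⟩ := hn
          exact ⟨Sum.inl (e a).1, fun hn => (hn ⟨a, ha⟩).elim, fun _ => ⟨a, ha, rfl⟩⟩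
        · exact ⟨Sum.inr ⟨t, hn⟩, fun _ => rfl, fun h => (hn h).elim⟩
      choose c hc1 hc2 using hc
      have hcA : ∀ t, c t ∈ {x : X ⊕ {t : Z // t ∉ Set.range ι} |
          Sum.elim ht (fun _ => k' + 1) x = k' ∨ Sum.elim ht (fun _ => k' + 1) x = k' + 1} := by
        intro t
        by_cases hn : t ∈ Set.range ι
        · obtain ⟨a, -, ha⟩ := hc2 t hn
          rw [ha]
          exact Or.inl (e a).2.2
        · rw [hc1 t hn]
          exact Or.inr rfl
      have hfc : (fun t => (Sum.elim f (fun t : {t : Z // t ∉ Set.range ι} => z2 t.1) :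
          X ⊕ {t : Z // t ∉ Set.range ι} → V) (c t)) = z2 := by
        funext t
        by_cases hn : t ∈ Set.range ι
        · obtain ⟨a, ha1, ha⟩ := hc2 t hn
          rw [ha]
          show f (e a).1 = z2 t
          rw [← hy, ← ha1, hz2ι]
        · rw [hc1 t hn]
          rfl
      have hz3 : tp 𝔹 (fun t => f'' (c t)) = tp 𝔹 z := by
        have h1 := tpo_comp hT c hcA
        rw [hfc] at h1
        exact h1.symm.trans hz2
      have h1 := hprp g (fun t => f'' (c t)) hg hz3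
        (exu_mono E1 (by
          rintro _ ⟨t, rfl, h2⟩
          have hn : t ∉ Set.range ι := by
            rintro ⟨a, rfl⟩
            rw [hzι] at h2
            have := hyy a 0
            omega
          refine ⟨c t, rfl, ?_, ?_⟩
          · rw [hc1 t hn]
            rfl
          · rw [hc1 t hn]
            show lv (z2 t) p < h
            by_contra h3
            have h4 : h ≤ lv (z2 t) (y 0) :=
              hult h _ p _ (not_lt.1 h3) (by rw [hsym]; exact hyp 0)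
            rw [hlz] at h4
            omega))
        (exu_mono E2 (by
          rintro _ ⟨t, htL, rfl⟩
          refine ⟨c t, ?_, rfl, ?_⟩
          · rw [hc1 t (hLι t htL)]
            exact htL
          · rw [hc1 t (hLι t htL)]
            rfl))
      refine exu_mono h1 ?_
      rintro _ ⟨x | t, hx, rfl, h2⟩
      · refine ⟨e.symm ⟨x, hx, h2⟩, ?_⟩
        obtain ⟨a', ha1, ha2⟩ := hc2 (ι (e.symm ⟨x, hx, h2⟩)) ⟨_, rfl⟩
        show f'' (Sum.inl x) = f'' (c (ι (e.symm ⟨x, hx, h2⟩)))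
        rw [ha2]
        refine (hT.1 (Sum.inl x) (Or.inl h2) (Sum.inl (e a').1) (Or.inl (e a').2.2)).1 ?_
        show f x = f (e a').1
        rw [← hy, ← hzι, ha1, hzι, hy, Equiv.apply_symm_apply]
      · have h2' : k' + 1 = k' := h2
        omega

end

theorem pf_LYR : T_LYR := by
  intro V ρ σ 𝔹 m lv 𝔸 i h R hV hA hP hm N
  induction N with
  | zero => exact lyr_zero hV hm
  | succ N ih => exact lyr_succ hV hA hP hm ih

end Pool.Agent.H74.CL
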